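import Pool.Agent.Lib.MP_ff61db_al.Cg.HA

/-! The antipode of a pointed Hopf algebra is surjective. -/

namespace Pool.Agent.Lib.MP_ff61db_al.Pg

open Submodule TensorProduct WithConv Cg

variable {k H : Type} [Field k] [Ring H] [HopfAlgebra k H]

section
variable {B : Type} [Ring B] [Algebra k B] {a b : WithConv (H →ₗ[k] B)}

theorem conv_zero {U W : Submodule k H} (ha : ∀ y ∈ U, a.ofConv y = 0)
    (hb : ∀ y ∈ W, b.ofConv y = 0) {x : H}
    (h : ∀ φ ψ : Du k H, (∀ y ∈ U, φ.ofConv y = 0) → (∀ y ∈ W, ψ.ofConv y = 0) →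
      (φ * ψ).ofConv x = 0) : (a * b).ofConv x = 0 := by
  obtain ⟨p, p1, p2⟩ := exists_proj U
  obtain ⟨q, q1, q2⟩ := exists_proj W
  have h0 : TensorProduct.map (LinearMap.id - p) (LinearMap.id - q)
      (Coalgebra.comul (R := k) x) = 0 :=
    tensor_zero fun φ ψ => by
      rw [pair_map]
      exact h (toConv _) (toConv _) (fun y hy => by simp [p2 y hy]) fun y hy => by simp [q2 y hy]
  have e1 : a.ofConv = a.ofConv ∘ₗ (LinearMap.id - p) := by ext y; simp [ha _ (p1 y)]
  have e2 : b.ofConv = b.ofConv ∘ₗ (LinearMap.id - q) := by ext y; simp [hb _ (q1 y)]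
  change LinearMap.mul' k B (TensorProduct.map a.ofConv b.ofConv (Coalgebra.comul x)) = 0
  rw [e1, e2, TensorProduct.map_comp, LinearMap.comp_apply, h0, map_zero, map_zero]

theorem conv_right {C : Submodule k H} (hC : Cl C) (hb : ∀ y ∈ C, b.ofConv y = 0) {x : H}
    (hx : x ∈ C) : (a * b).ofConv x = 0 :=
  conv_zero (U := ⊥) (fun y hy => by rw [(mem_bot k).1 hy, map_zero]) hb fun φ ψ _ h => by
    rw [← du_ract]
    exact h _ (hC.r φ x hx)

theorem conv_pow {K : Submodule k H} (hK : Cl K) (ha : ∀ y ∈ K, a.ofConv y = 0) (n : ℕ) :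
    ∀ x ∈ Uw K n, (a ^ n).ofConv x = 0 := by
  induction n with
  | zero => intro x hx; rw [Uw_zero, mem_bot] at hx; rw [hx, map_zero]
  | succ n ih =>
    intro x hx
    rw [pow_succ]
    exact conv_zero ih ha fun φ ψ h1 h2 =>
      Uw_pair hK (C := ⊤) ⟨fun _ _ _ => trivial, fun _ _ _ => trivial⟩ (fun y hy => h1 y hy.1)
        (fun y hy => h2 y (Uw_one_le hy.1)) ⟨hx, trivial⟩

end

theorem exists_Uw {Y : Submodule k H} (hY : Y.FG) : ∃ n, Y ≤ Uw (coradical k H) n := by
  obtain ⟨C, c1, c2, c3, -⟩ := exists_fd Y hY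
  have : Module.Finite k C := Module.Finite.iff_fg.2 c1
  obtain ⟨n, hn⟩ := Uw_top coradical_cl c2 c1 fun D h1 h2 h3 => coradical_meets h1
    (Module.Finite.iff_fg.1 (Submodule.finiteDimensional_of_le h2)) h3
  exact ⟨n, c3.trans hn⟩

/-- A map `T` with `∑ T(y₂) y₁ = ε(y)` on one term of the coradical filtration. -/
theorem exists_skew (hpt : coradical k H = span k {g : H | IsGroupLikeElem k g}) (n : ℕ) :
    ∃ T : H →ₗ[k] H, ∀ y ∈ Uw (coradical k H) n,
      LinearMap.mul' k H (TensorProduct.map T LinearMap.id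
        (TensorProduct.comm k H H (Coalgebra.comul y))) =
          algebraMap k H (Coalgebra.counit y) := by
  let e := MulOpposite.opLinearEquiv k (M := H)
  let f : WithConv (H →ₗ[k] Hᵐᵒᵖ) := toConv e.toLinearMap
  let g : WithConv (H →ₗ[k] Hᵐᵒᵖ) := toConv (e.toLinearMap ∘ₗ HopfAlgebra.antipode k)
  have h1 : ∀ y ∈ coradical k H, (1 - f * g).ofConv y = 0 := by
    rw [hpt]
    refine (span_le.2 fun y hy => ?_ : _ ≤ LinearMap.ker (1 - f * g).ofConv)
    have hy' : IsGroupLikeElem k y := hy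
    change (1 : WithConv (H →ₗ[k] Hᵐᵒᵖ)).ofConv y - LinearMap.mul' k _
      (TensorProduct.map f.ofConv g.ofConv (Coalgebra.comul y)) = 0
    rw [hy'.comul_eq_tmul_self, LinearMap.convOne_def]
    simp [f, g, e, hy'.counit_eq_one, ← MulOpposite.op_mul, hy'.antipode_mul_cancel]
  let t := g * ∑ i ∈ Finset.range n, (1 - f * g) ^ i
  have h2 : f * t = 1 - (1 - f * g) ^ n := by
    rw [← mul_assoc, ← mul_neg_geom_sum, sub_sub_cancel]
  refine ⟨e.symm.toLinearMap ∘ₗ t.ofConv, fun y hy => ?_⟩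
  have h3 : (f * t).ofConv y = algebraMap k Hᵐᵒᵖ (Coalgebra.counit y) := by
    rw [h2]
    change (1 : WithConv (H →ₗ[k] Hᵐᵒᵖ)).ofConv y - ((1 - f * g) ^ n).ofConv y = _
    rw [conv_pow coradical_cl h1 n y hy, sub_zero]
    rfl
  have h4 : ∀ s : H ⊗[k] H, LinearMap.mul' k H (TensorProduct.map (e.symm.toLinearMap ∘ₗ t.ofConv)
      LinearMap.id (TensorProduct.comm k H H s)) =
      (LinearMap.mul' k Hᵐᵒᵖ (TensorProduct.map f.ofConv t.ofConv s)).unop := fun s => by
    induction s with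
    | zero => simp
    | tmul u v => simp [f, e]
    | add s s' hs hs' => simp only [map_add, hs, hs', MulOpposite.unop_add]
  rw [h4]
  exact congrArg MulOpposite.unop h3

theorem antipode_surj (hpt : coradical k H = span k {g : H | IsGroupLikeElem k g}) :
    Function.Surjective (HopfAlgebra.antipode k : H →ₗ[k] H) := fun x => by
  obtain ⟨n, hn⟩ := exists_Uw (fg_span_singleton (R := k) x)
  obtain ⟨T, hT⟩ := exists_skew hpt n
  have h1 : ∀ y ∈ Uw (coradical k H) n, (toConv (HopfAlgebra.antipode k (A := H)) *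
      toConv (HopfAlgebra.antipode k ∘ₗ T) - 1).ofConv y = 0 := fun y hy => by
    have h2 : ∀ s : H ⊗[k] H, LinearMap.mul' k H (TensorProduct.map (HopfAlgebra.antipode k)
        (HopfAlgebra.antipode k ∘ₗ T) s) = HopfAlgebra.antipode k (LinearMap.mul' k H
          (TensorProduct.map T LinearMap.id (TensorProduct.comm k H H s))) := fun s => by
      induction s with
      | zero => simp
      | tmul u v => simp [HopfAlgebra.antipode_mul_antidistrib]
      | add s s' hs hs' => simp only [map_add, hs, hs']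
    change LinearMap.mul' k H (TensorProduct.map (HopfAlgebra.antipode k)
      (HopfAlgebra.antipode k ∘ₗ T) (Coalgebra.comul y)) - algebraMap k H (Coalgebra.counit y) = 0
    rw [h2, hT y hy]
    simp [Algebra.algebraMap_eq_smul_one]
  have h3 := conv_right (a := toConv LinearMap.id) (Uw_cl coradical_cl n) h1
    (hn (mem_span_singleton_self x))
  rw [mul_sub, ← mul_assoc, LinearMap.id_mul_antipode, one_mul, mul_one] at h3
  exact ⟨T x, sub_eq_zero.1 h3⟩

end Pool.Agent.Lib.MP_ff61db_al.Pg
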