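import Pool.Agent.Lib.MP_ff61db_al.Cg.TopB
import Pool.Agent.Lib.MP_ff61db_al.Cg.Down
import Pool.Agent.Lib.MP_ff61db_al.Cg.Up
import Pool.Agent.Lib.MP_ff61db_al.Cg.BP1
import Pool.Agent.Lib.MP_ff61db_al.Cg.BP2
import Pool.Agent.Lib.MP_ff61db_al.Cg.BE1
import Pool.Agent.Lib.MP_ff61db_al.Cg.BG
import Pool.Agent.Lib.MP_ff61db_al.Cg.BQ
import Pool.Agent.Lib.MP_ff61db_al.Cg.BT

/-! Extensions of a group algebra by a Hopf algebra with surjective antipode. The first four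
statements repeat those of `Cg.Main2`, whose imports are not needed here. -/

namespace Pool.Agent.Lib.MP_ff61db_al.Pg

open Submodule TensorProduct WithConv Cg

variable {k H : Type} [Field k] [Ring H] [HopfAlgebra k H] {Γ : Type} [Group Γ]

theorem co_aff {V : Submodule k H} (hV : Growth V) (hgen : Algebra.adjoin k (V : Set H) = ⊤)
    {A : Γ → Submodule k H} (h : Co A) : Aff (Sm (A 1)) := by
  obtain ⟨K, B, hB, h1, h2⟩ := h.exists_gr
  rw [← h2]
  refine hB.down (pg_of_gk hV hgen) ⟨Sm V, hV.fg.map _, ?_⟩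
  rw [h1, ← Sm_gen, gen, hgen]
  rfl

theorem len_all [hG : Group.FG Γ] : ∃ F : Set Γ, F.Finite ∧ ∀ γ, ∃ n, Len F n γ := by
  obtain ⟨S, h1, h2⟩ := Group.fg_iff.1 hG
  refine ⟨S ∪ S⁻¹, h2.union h2.inv, fun γ => ?_⟩
  have h3 : γ ∈ Submonoid.closure (S ∪ S⁻¹) := by
    rw [← Subgroup.closure_toSubmonoid, h1]
    trivial
  obtain ⟨l, h4, h5⟩ := Submonoid.exists_list_of_mem_closure h3
  exact ⟨_, l, le_rfl, h4, h5⟩

theorem bi_fg {V : Submodule k H} (hV : Growth V) (hgen : Algebra.adjoin k (V : Set H) = ⊤)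
    {δ : Γ → Du k H} (h : Cg.Bi δ) : Group.FG Γ :=
  h.sgR.fg h.indR (fun g => (h.ne g).elim fun _ hu => topB_ne hu.1 hu.2.2)
    ⟨V, hV.fg, by rw [h.topR, gen, hgen]; rfl⟩

theorem bi_aff {V : Submodule k H} (hV : Growth V) (hgen : Algebra.adjoin k (V : Set H) = ⊤)
    {δ : Γ → Du k H} (h : Cg.Bi δ) : Aff (Sm (Rt δ 1)) := by
  have := bi_fg hV hgen h
  obtain ⟨F, f1, f2⟩ := len_all (Γ := Γ)
  obtain ⟨e, m⟩ := h.exists_mg
  obtain ⟨l, n, l1, l2⟩ := m.exists_stable h (pg_of_gk hV hgen) f1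
  have p := m.pj h f2 l1 l2
  obtain ⟨Q, _, _, π, q1, q2, q3⟩ := p.exists_quot
  obtain ⟨g1, g2⟩ := growth_map π q1 hV hgen
  exact p.aff h π q2 q3 (co_aff g1 g2 (p.co h π q1 q2))

theorem bi_up {V : Submodule k H} (hV : Growth V) (hgen : Algebra.adjoin k (V : Set H) = ⊤)
    {δ : Γ → Du k H} (h : Cg.Bi δ) (hl : LN (Rt δ 1)) (hr : RN (Rt δ 1)) :
    IsNoetherianRing H ∧ IsNoetherianRing Hᵐᵒᵖ := by
  have := bi_fg hV hgen h
  have hv := h.sgR.vn h.indR (fun g => (h.ne g).imp fun _ hu => ⟨hu.1, hu.2.2⟩) (pg_of_gk hV hgen)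
  obtain ⟨R, r1, r2⟩ := h.topR ▸ up_left hv h.sgR hl
  obtain ⟨R', r3, r4⟩ := h.topR ▸ up_right hv h.sgR hr
  obtain rfl : R = ⊤ := SetLike.coe_injective r1
  obtain rfl : R' = ⊤ := SetLike.coe_injective r3
  exact ⟨isNoetherianRing_of_ringEquiv _ Subring.topEquiv,
    isNoetherianRing_of_ringEquiv _ (RingEquiv.op Subring.topEquiv)⟩

variable {K : Type} [Ring K] [HopfAlgebra k K]

theorem map_antipode (ι : K →ₐc[k] H) (x : K) :
    ι (HopfAlgebra.antipode k x) = HopfAlgebra.antipode k (ι x) := by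
  have h1 := ha_inv (ι : K →ₐ[k] H)
  have h2 : toConv (ι : K →ₐ[k] H).toLinearMap *
      toConv (HopfAlgebra.antipode k ∘ₗ (ι : K →ₐ[k] H).toLinearMap) = 1 := by
    apply WithConv.ofConv_injective
    have h := LinearMap.convMul_comp_coalgHom_distrib (toConv LinearMap.id)
      (toConv (HopfAlgebra.antipode k (A := H))) (ι : K →ₗc[k] H)
    rw [LinearMap.id_mul_antipode] at h
    refine Eq.trans h.symm ?_
    ext y
    simp [LinearMap.convOne_def]
  exact LinearMap.congr_fun (congrArg WithConv.ofConv (left_inv_eq_right_inv h1 h2)) x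

theorem fgk_down (hP : PG k H) (ι : K →ₐ[k] H) (hι : Function.Injective ι)
    (h : Aff (LinearMap.range ι.toLinearMap)) :
    ∃ W : Submodule k K, Growth W ∧ Algebra.adjoin k (W : Set K) = ⊤ := by
  obtain ⟨V, v1, v2⟩ := h
  have v3 : (V.comap ι.toLinearMap).map ι.toLinearMap = V :=
    map_comap_eq_self (v2 ▸ le_gen V)
  have v4 : (V.comap ι.toLinearMap).FG :=
    fg_of_fg_map_injective ι.toLinearMap hι (by rwa [v3])
  have v5 : (V.comap ι.toLinearMap ⊔ span k {1}).FG := v4.sup (fg_span_singleton _)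
  obtain ⟨d, hd⟩ := hP
  obtain ⟨C, hC⟩ := hd _ (v5.map ι.toLinearMap)
  refine ⟨_, ⟨v5, mem_sup_right (mem_span_singleton_self _), C, d, fun n => ?_⟩, ?_⟩
  · refine le_trans (le_of_eq ?_) (hC n)
    rw [← Submodule.map_pow]
    exact (equivMapOfInjective ι.toLinearMap hι _).finrank_eq
  · refine eq_top_iff.2 fun x _ => ?_
    have h1 : ι x ∈ (Algebra.adjoin k (V.comap ι.toLinearMap : Set K)).map ι := by
      have h2 : ι '' (V.comap ι.toLinearMap : Set K) = V := congrArg SetLike.coe v3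
      rw [AlgHom.map_adjoin, h2]
      exact (v2.ge : _ ≤ gen V) ⟨x, rfl⟩
    obtain ⟨y, h3, h4⟩ := h1
    exact hι h4 ▸ Algebra.adjoin_mono (SetLike.coe_subset_coe.2 le_sup_left) h3

/-- If the antipode of `K` is surjective, the question for `H` reduces to the question for `K`. -/
theorem ext_main {V : Submodule k H} (hV : Growth V) (hgen : Algebra.adjoin k (V : Set H) = ⊤)
    (π : H →ₐc[k] MonoidAlgebra k Γ) (ι : K →ₐc[k] H) (hι : Function.Injective ι)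
    (hr : ∀ x : H, LinearMap.lTensor H π.toLinearMap (Coalgebra.comul x) = x ⊗ₜ[k] 1 ↔
      x ∈ Set.range ι)
    (hl : ∀ x : H, LinearMap.rTensor H π.toLinearMap (Coalgebra.comul x) = 1 ⊗ₜ[k] x ↔
      x ∈ Set.range ι)
    (hS : Function.Surjective (HopfAlgebra.antipode k : K →ₗ[k] K))
    (hK : (∃ W : Submodule k K, Growth W ∧ Algebra.adjoin k (W : Set K) = ⊤) →
      IsNoetherianRing K ∧ IsNoetherianRing Kᵐᵒᵖ) :
    IsNoetherianRing H ∧ IsNoetherianRing Hᵐᵒᵖ := by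
  obtain ⟨δ, d1, d2, d3⟩ := exists_de π
  obtain ⟨L, k1, k2⟩ := d1.supp
  have he : Rt δ 1 = Lt δ 1 := Submodule.ext fun x => by rw [d2, d3, hr, hl]
  have h := k1.bi he k2
  have e : Rt (fun g : L => δ g) 1 = LinearMap.range (ι : K →ₐ[k] H).toLinearMap :=
    Submodule.ext fun x => (d2 x).trans (hr x)
  have e' : Sm (Rt (fun g : L => δ g) 1) = LinearMap.range (ι : K →ₐ[k] H).toLinearMap := by
    refine le_antisymm (h.anti_one.trans e.le) ?_
    rintro _ ⟨x, rfl⟩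
    obtain ⟨y, rfl⟩ := hS x
    exact ⟨ι y, e.ge ⟨y, rfl⟩, (map_antipode ι y).symm⟩
  obtain ⟨n1, n2⟩ := hK (fgk_down (pg_of_gk hV hgen) (ι : K →ₐ[k] H) hι (e' ▸ bi_aff hV hgen h))
  let φ := (AlgEquiv.ofInjective (ι : K →ₐ[k] H) hι).toRingEquiv
  have hs : ((ι : K →ₐ[k] H).range.toSubring : Set H) = Rt (fun g : L => δ g) 1 := by
    rw [e]
    rfl
  exact bi_up hV hgen h ⟨_, hs, isNoetherianRing_of_ringEquiv _ φ⟩
    ⟨_, hs, isNoetherianRing_of_ringEquiv _ (RingEquiv.op φ)⟩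

end Pool.Agent.Lib.MP_ff61db_al.Pg
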